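import Mathlib

/-!
# MP_3f3880_lc, Q1: uniform announced weights, a graph with no `(1+α)/2`-competitive algorithm

The graph has `12` vertices.  It has exactly two Hamiltonian paths from `s = 0` to `t = 11`; they
leave `0` along different edges and share only `4` edges.  With `α = 11/10` the adversary puts
weight `α` on the edges used only by the path which the algorithm has started (except the edges
at `s`), and `1` on all other edges.
-/

namespace Pool.Agent.Results.MP_3f3880_lc.NotHalfCompetitive

open SimpleGraph

/-! ### Definitions -/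

/-- The cost of a walk: the weights of its edges, counted with multiplicity. -/
noncomputable def cost {V : Type} {G : SimpleGraph V} {u v : V} (w : Sym2 V → ℝ)
    (p : G.Walk u v) : ℝ := (p.edges.map w).sum

/-- The walk visits every vertex. -/
def Covers {V : Type} {G : SimpleGraph V} {u v : V} (p : G.Walk u v) : Prop :=
  ∀ x : V, x ∈ p.support

/-- All edge weights lie in `[1, α]`. -/
def Admissible {V : Type} (G : SimpleGraph V) (α : ℝ) (w : Sym2 V → ℝ) : Prop :=
  ∀ e ∈ G.edgeSet, 1 ≤ w e ∧ w e ≤ α

/-- The least cost of a covering walk from `s` to `t`. -/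
noncomputable def opt {V : Type} (G : SimpleGraph V) (s t : V) (w : Sym2 V → ℝ) : ℝ :=
  sInf {c | ∃ p : G.Walk s t, Covers p ∧ c = cost w p}

/-- A deterministic online algorithm: for each weight function a covering walk from `s` to `t`,
whose next vertex depends only on the weights of the edges at the vertices visited so far. -/
structure OnlineAlg {V : Type} (G : SimpleGraph V) (s t : V) (α : ℝ) where
  /-- the walk taken for given weights -/
  walk : (Sym2 V → ℝ) → G.Walk s t
  covers : ∀ w, Admissible G α w → Covers (walk w)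
  online : ∀ w w', Admissible G α w → Admissible G α w' → ∀ i : ℕ,
    (∀ j ≤ i, ∀ u, G.Adj ((walk w).getVert j) u →
      w s((walk w).getVert j, u) = w' s((walk w).getVert j, u)) →
    (walk w').getVert (i + 1) = (walk w).getVert (i + 1)

/-! ### The graph -/

/-- The edges. -/
def E : List (Fin 12 × Fin 12) :=
  [(0, 2), (0, 4), (1, 2), (1, 3), (1, 4), (1, 5), (2, 5), (3, 4), (6, 7), (6, 8), (6, 9),
    (6, 10), (7, 10), (8, 9), (3, 7), (5, 9), (8, 11), (10, 11)]

/-- The graph. -/
def G12 : SimpleGraph (Fin 12) where
  Adj a b := (a, b) ∈ E ∨ (b, a) ∈ E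
  symm := ⟨fun _ _ h => h.symm⟩
  loopless := ⟨by decide⟩

instance : DecidableRel G12.Adj := fun a b =>
  inferInstanceAs (Decidable ((a, b) ∈ E ∨ (b, a) ∈ E))

/-- All continuations with `k` further vertices avoiding `vis`. -/
def ext : ℕ → Fin 12 → List (Fin 12) → List (List (Fin 12))
  | 0, _, _ => [[]]
  | k + 1, cur, vis =>
    ((List.finRange 12).filter (fun u => decide (G12.Adj cur u) && !(decide (u ∈ vis)))).flatMap
      (fun u => (ext k u (u :: vis)).map (fun l => u :: l))

theorem mem_ext {u v : Fin 12} (p : G12.Walk u v) : ∀ vis : List (Fin 12),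
    p.support.tail.Nodup → (∀ x ∈ p.support.tail, x ∉ vis) →
    p.support.tail ∈ ext p.length u vis := by
  induction p with
  | nil => intro vis _ _; simp [ext]
  | @cons u u' v h q ih =>
    intro vis hnd hvis
    simp only [Walk.support_cons, List.tail_cons] at hnd hvis ⊢
    have hq : q.support = u' :: q.support.tail := q.support_eq_cons
    rw [Walk.length_cons, ext, List.mem_flatMap]
    have hnd' : (u' :: q.support.tail).Nodup := hq ▸ hnd
    rw [List.nodup_cons] at hnd'
    refine ⟨u', ?_, ?_⟩
    · rw [List.mem_filter]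
      refine ⟨List.mem_finRange _, ?_⟩
      have h1 : u' ∉ vis := hvis u' (by rw [hq]; simp)
      simp [h, h1]
    · rw [List.mem_map]
      refine ⟨q.support.tail, ih (u' :: vis) hnd'.2 ?_, hq.symm⟩
      intro x hx hmem
      rcases List.mem_cons.1 hmem with hx' | hx'
      · subst hx'
        exact hnd'.1 hx
      · exact hvis x (List.mem_of_mem_tail hx) hx'

theorem ext_top : ∀ l ∈ ext 10 2 [2, 0], l.getLast? = some 11 →
    l = [5, 1, 4, 3, 7, 10, 6, 9, 8, 11] := by decide +kernel

theorem ext_bot : ∀ l ∈ ext 10 4 [4, 0], l.getLast? = some 11 →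
    l = [3, 1, 2, 5, 9, 8, 6, 7, 10, 11] := by decide +kernel

/-- Cost along a list of vertices. -/
noncomputable def costL (w : Sym2 (Fin 12) → ℝ) : List (Fin 12) → ℝ
  | [] => 0
  | [_] => 0
  | a :: b :: l => w s(a, b) + costL w (b :: l)

theorem cost_eq (w : Sym2 (Fin 12) → ℝ) {u v : Fin 12} (p : G12.Walk u v) :
    cost w p = costL w p.support := by
  induction p with
  | nil => simp [cost, costL]
  | @cons u u' v h q ih =>
    have hq : q.support = u' :: q.support.tail := q.support_eq_cons
    rw [Walk.support_cons, hq, costL, ← hq, ← ih]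
    simp [cost]

theorem cost_ge {w : Sym2 (Fin 12) → ℝ} (hw : ∀ e ∈ G12.edgeSet, 1 ≤ w e) {u v : Fin 12}
    (p : G12.Walk u v) : (p.length : ℝ) ≤ cost w p := by
  induction p with
  | nil => simp [cost]
  | @cons u u' v h q ih =>
    have h1 : 1 ≤ w s(u, u') := hw _ h
    have h2 : cost w (Walk.cons h q) = w s(u, u') + cost w q := by simp [cost]
    rw [h2, Walk.length_cons]
    push_cast
    linarith

/-- A covering walk that starts in direction `x` is expensive. -/
theorem low {w : Sym2 (Fin 12) → ℝ} (hw : ∀ e ∈ G12.edgeSet, 1 ≤ w e) {x : Fin 12}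
    {L : List (Fin 12)} (hL : ∀ l ∈ ext 10 x [x, 0], l.getLast? = some 11 → l = L)
    (hc : 231 / 20 < costL w (0 :: x :: L)) (p : G12.Walk 0 11) (hp : Covers p)
    (hx : p.getVert 1 = x) : 231 / 20 < cost w p := by
  have hsub : (Finset.univ : Finset (Fin 12)) ⊆ p.support.toFinset := by
    intro y _
    rw [List.mem_toFinset]
    exact hp y
  have hcard : 12 ≤ p.support.toFinset.card := by
    have := Finset.card_le_card hsub
    simpa using this
  have hlen : p.support.length = p.length + 1 := p.length_support
  have hle : p.support.toFinset.card ≤ p.support.length := List.toFinset_card_le _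
  rcases Nat.lt_or_ge 11 p.length with hl | hl
  · have h1 := cost_ge hw p
    have h2 : (12 : ℝ) ≤ (p.length : ℝ) := by exact_mod_cast hl
    linarith
  · have h11 : p.length = 11 := by omega
    have hnd : p.support.Nodup := by
      have h1 : p.support.toFinset.card = p.support.length := by omega
      have h2 : (Multiset.toFinset (p.support : Multiset (Fin 12))).card =
          Multiset.card (p.support : Multiset (Fin 12)) := h1
      rw [Multiset.toFinset_card_eq_card_iff_nodup] at h2
      exact Multiset.coe_nodup.1 h2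
    have key : ∀ (p : G12.Walk 0 11), p.length = 11 → p.support.Nodup → p.getVert 1 = x →
        p.support = 0 :: x :: L := by
      intro p h11 hnd hx
      generalize hz : (11 : Fin 12) = z at p
      cases p with
      | nil => simp at h11
      | @cons _ u' _ h q =>
        have hu' : u' = x := by simpa using hx
        subst hu'
        rw [Walk.support_cons]
        rw [Walk.support_cons, List.nodup_cons] at hnd
        have hq : q.support = u' :: q.support.tail := q.support_eq_cons
        have hql : q.length = 10 := by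
          rw [Walk.length_cons] at h11
          omega
        have hnd2 : (u' :: q.support.tail).Nodup := hq ▸ hnd.2
        rw [List.nodup_cons] at hnd2
        have hmem := mem_ext q [u', 0] hnd2.2 (by
          intro y hy hmem
          simp only [List.mem_cons, List.not_mem_nil, or_false] at hmem
          rcases hmem with rfl | rfl
          · exact hnd2.1 hy
          · exact hnd.1 (List.mem_of_mem_tail hy))
        rw [hql] at hmem
        have hlast : q.support.tail.getLast? = some 11 := by
          have h1 : q.support.getLast? = some z := by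
            rw [List.getLast?_eq_getLast_of_ne_nil q.support_ne_nil, Walk.getLast_support]
          have hne : q.support.tail ≠ [] := by
            intro h0
            have h3 := q.length_support
            rw [hq, h0, hql] at h3
            simp at h3
          rw [hq, List.getLast?_cons_of_ne_nil hne] at h1
          rw [h1, hz]
        have := hL _ hmem hlast
        rw [hq, this]
    rw [cost_eq, key p h11 hnd hx]
    exact hc

/-! ### The two weight functions -/

/-- Edges used only by the first path, except at `0`. -/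
def badA : List (Sym2 (Fin 12)) := [s(1, 5), s(1, 4), s(3, 7), s(6, 10), s(6, 9), s(8, 11)]

/-- Edges used only by the second path, except at `0`. -/
def badB : List (Sym2 (Fin 12)) := [s(1, 3), s(1, 2), s(5, 9), s(6, 8), s(6, 7), s(10, 11)]

/-- Weight `11/10` on the listed edges and `1` elsewhere. -/
noncomputable def wt (bad : List (Sym2 (Fin 12))) (e : Sym2 (Fin 12)) : ℝ :=
  if e ∈ bad then 11 / 10 else 1

theorem wt_adm (bad : List (Sym2 (Fin 12))) : Admissible G12 (11 / 10) (wt bad) := by
  intro e _
  unfold wt
  split_ifs <;> norm_num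

/-- The first Hamiltonian path. -/
def walkP : G12.Walk 0 11 :=
  .cons (by decide : G12.Adj 0 2) (.cons (by decide : G12.Adj 2 5)
  (.cons (by decide : G12.Adj 5 1) (.cons (by decide : G12.Adj 1 4)
  (.cons (by decide : G12.Adj 4 3) (.cons (by decide : G12.Adj 3 7)
  (.cons (by decide : G12.Adj 7 10) (.cons (by decide : G12.Adj 10 6)
  (.cons (by decide : G12.Adj 6 9) (.cons (by decide : G12.Adj 9 8)
  (.cons (by decide : G12.Adj 8 11) .nil))))))))))

/-- The second Hamiltonian path. -/
def walkQ : G12.Walk 0 11 :=
  .cons (by decide : G12.Adj 0 4) (.cons (by decide : G12.Adj 4 3)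
  (.cons (by decide : G12.Adj 3 1) (.cons (by decide : G12.Adj 1 2)
  (.cons (by decide : G12.Adj 2 5) (.cons (by decide : G12.Adj 5 9)
  (.cons (by decide : G12.Adj 9 8) (.cons (by decide : G12.Adj 8 6)
  (.cons (by decide : G12.Adj 6 7) (.cons (by decide : G12.Adj 7 10)
  (.cons (by decide : G12.Adj 10 11) .nil))))))))))

theorem walkP_support : walkP.support = [0, 2, 5, 1, 4, 3, 7, 10, 6, 9, 8, 11] := rfl

theorem walkQ_support : walkQ.support = [0, 4, 3, 1, 2, 5, 9, 8, 6, 7, 10, 11] := rfl

theorem walkP_covers : Covers walkP := by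
  intro x
  rw [walkP_support]
  revert x
  decide

theorem walkQ_covers : Covers walkQ := by
  intro x
  rw [walkQ_support]
  revert x
  decide

theorem costA : 231 / 20 < costL (wt badA) (0 :: 2 :: [5, 1, 4, 3, 7, 10, 6, 9, 8, 11]) := by
  have e1 : wt badA s(0, 2) = 1 := if_neg (by decide)
  have e2 : wt badA s(2, 5) = 1 := if_neg (by decide)
  have e3 : wt badA s(5, 1) = 11 / 10 := if_pos (by decide)
  have e4 : wt badA s(1, 4) = 11 / 10 := if_pos (by decide)
  have e5 : wt badA s(4, 3) = 1 := if_neg (by decide)
  have e6 : wt badA s(3, 7) = 11 / 10 := if_pos (by decide)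
  have e7 : wt badA s(7, 10) = 1 := if_neg (by decide)
  have e8 : wt badA s(10, 6) = 11 / 10 := if_pos (by decide)
  have e9 : wt badA s(6, 9) = 11 / 10 := if_pos (by decide)
  have e10 : wt badA s(9, 8) = 1 := if_neg (by decide)
  have e11 : wt badA s(8, 11) = 11 / 10 := if_pos (by decide)
  simp only [costL, e1, e2, e3, e4, e5, e6, e7, e8, e9, e10, e11]
  norm_num

theorem costB : 231 / 20 < costL (wt badB) (0 :: 4 :: [3, 1, 2, 5, 9, 8, 6, 7, 10, 11]) := by
  have e1 : wt badB s(0, 4) = 1 := if_neg (by decide)
  have e2 : wt badB s(4, 3) = 1 := if_neg (by decide)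
  have e3 : wt badB s(3, 1) = 11 / 10 := if_pos (by decide)
  have e4 : wt badB s(1, 2) = 11 / 10 := if_pos (by decide)
  have e5 : wt badB s(2, 5) = 1 := if_neg (by decide)
  have e6 : wt badB s(5, 9) = 11 / 10 := if_pos (by decide)
  have e7 : wt badB s(9, 8) = 1 := if_neg (by decide)
  have e8 : wt badB s(8, 6) = 11 / 10 := if_pos (by decide)
  have e9 : wt badB s(6, 7) = 11 / 10 := if_pos (by decide)
  have e10 : wt badB s(7, 10) = 1 := if_neg (by decide)
  have e11 : wt badB s(10, 11) = 11 / 10 := if_pos (by decide)
  simp only [costL, e1, e2, e3, e4, e5, e6, e7, e8, e9, e10, e11]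
  norm_num

theorem optA : cost (wt badA) walkQ = 11 := by
  have e1 : wt badA s(0, 4) = 1 := if_neg (by decide)
  have e2 : wt badA s(4, 3) = 1 := if_neg (by decide)
  have e3 : wt badA s(3, 1) = 1 := if_neg (by decide)
  have e4 : wt badA s(1, 2) = 1 := if_neg (by decide)
  have e5 : wt badA s(2, 5) = 1 := if_neg (by decide)
  have e6 : wt badA s(5, 9) = 1 := if_neg (by decide)
  have e7 : wt badA s(9, 8) = 1 := if_neg (by decide)
  have e8 : wt badA s(8, 6) = 1 := if_neg (by decide)
  have e9 : wt badA s(6, 7) = 1 := if_neg (by decide)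
  have e10 : wt badA s(7, 10) = 1 := if_neg (by decide)
  have e11 : wt badA s(10, 11) = 1 := if_neg (by decide)
  rw [cost_eq, walkQ_support]
  simp only [costL, e1, e2, e3, e4, e5, e6, e7, e8, e9, e10, e11]
  norm_num

theorem optB : cost (wt badB) walkP = 11 := by
  have e1 : wt badB s(0, 2) = 1 := if_neg (by decide)
  have e2 : wt badB s(2, 5) = 1 := if_neg (by decide)
  have e3 : wt badB s(5, 1) = 1 := if_neg (by decide)
  have e4 : wt badB s(1, 4) = 1 := if_neg (by decide)
  have e5 : wt badB s(4, 3) = 1 := if_neg (by decide)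
  have e6 : wt badB s(3, 7) = 1 := if_neg (by decide)
  have e7 : wt badB s(7, 10) = 1 := if_neg (by decide)
  have e8 : wt badB s(10, 6) = 1 := if_neg (by decide)
  have e9 : wt badB s(6, 9) = 1 := if_neg (by decide)
  have e10 : wt badB s(9, 8) = 1 := if_neg (by decide)
  have e11 : wt badB s(8, 11) = 1 := if_neg (by decide)
  rw [cost_eq, walkP_support]
  simp only [costL, e1, e2, e3, e4, e5, e6, e7, e8, e9, e10, e11]
  norm_num

theorem opt_le {w : Sym2 (Fin 12) → ℝ} (hw : ∀ e ∈ G12.edgeSet, 1 ≤ w e) (p : G12.Walk 0 11)
    (hp : Covers p) : opt G12 0 11 w ≤ cost w p := by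
  refine csInf_le ⟨0, ?_⟩ ⟨p, hp, rfl⟩
  rintro c ⟨q, -, rfl⟩
  have h1 := cost_ge hw q
  have h2 : (0 : ℝ) ≤ (q.length : ℝ) := Nat.cast_nonneg _
  linarith

theorem connected : G12.Connected := by
  have h : ∀ x : Fin 12, G12.Reachable 0 x := by
    intro x
    exact ⟨walkP.takeUntil x (walkP_covers x)⟩
  exact { preconnected := fun x y => (h x).symm.trans (h y), nonempty := ⟨0⟩ }

/-- **Main result.** For some `α ∈ [1, 2]` (namely `11/10`) there is a connected graph with
distinct vertices `s`, `t` on which every online algorithm has, for some weights in `[1, α]`, cost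
exceeding `(1 + α) / 2 · OPT`. -/
theorem result : ∃ (α : ℝ) (n : ℕ) (G : SimpleGraph (Fin n)) (s t : Fin n), 1 ≤ α ∧ α ≤ 2 ∧
    G.Connected ∧ s ≠ t ∧ ∀ A : OnlineAlg G s t α, ∃ w : Sym2 (Fin n) → ℝ,
      Admissible G α w ∧ (1 + α) / 2 * opt G s t w < cost w (A.walk w) := by
  refine ⟨11 / 10, 12, G12, 0, 11, by norm_num, by norm_num, connected, by decide, ?_⟩
  intro A
  have hA := wt_adm badA
  have hB := wt_adm badB
  have hA1 : ∀ e ∈ G12.edgeSet, 1 ≤ wt badA e := fun e he => (hA e he).1
  have hB1 : ∀ e ∈ G12.edgeSet, 1 ≤ wt badB e := fun e he => (hB e he).1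
  have hcov := A.covers _ hA
  have hfirst : (A.walk (wt badA)).getVert 1 = 2 ∨ (A.walk (wt badA)).getVert 1 = 4 := by
    have hnn : ¬ (A.walk (wt badA)).Nil := Walk.not_nil_of_ne (by decide)
    have hadj : G12.Adj 0 ((A.walk (wt badA)).getVert 1) := Walk.adj_snd hnn
    have hall : ∀ y : Fin 12, G12.Adj 0 y → y = 2 ∨ y = 4 := by decide
    exact hall _ hadj
  rcases hfirst with h2 | h4
  · refine ⟨wt badA, hA, ?_⟩
    have h5 := low hA1 ext_top costA (A.walk (wt badA)) hcov h2
    have h6 := opt_le hA1 walkQ walkQ_covers
    rw [optA] at h6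
    linarith
  · refine ⟨wt badB, hB, ?_⟩
    have h7 : (A.walk (wt badB)).getVert 1 = 4 := by
      have h8 := A.online (wt badA) (wt badB) hA hB 0 (by
        intro j hj u hu
        have hj0 : j = 0 := by omega
        subst hj0
        rw [Walk.getVert_zero] at hu ⊢
        have hall : ∀ y : Fin 12, G12.Adj 0 y → y = 2 ∨ y = 4 := by decide
        rcases hall u hu with rfl | rfl
        · have e1 : wt badA s(0, 2) = 1 := if_neg (by decide)
          have e2 : wt badB s(0, 2) = 1 := if_neg (by decide)
          rw [e1, e2]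
        · have e1 : wt badA s(0, 4) = 1 := if_neg (by decide)
          have e2 : wt badB s(0, 4) = 1 := if_neg (by decide)
          rw [e1, e2])
      rw [← h4]
      exact h8
    have h5 := low hB1 ext_bot costB (A.walk (wt badB)) (A.covers _ hB) h7
    have h6 := opt_le hB1 walkP walkP_covers
    rw [optB] at h6
    linarith

end Pool.Agent.Results.MP_3f3880_lc.NotHalfCompetitive
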